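import Pool.Agent.Lock.Facets

set_option autoImplicit false

/-!
# The facets that avoid a vertex are strongly connected
-/

namespace Pool.Agent.Lock

open Module Relation Set

variable {ι : Type*} {V : Type*} [AddCommGroup V] [Module ℝ V] [FiniteDimensional ℝ V] [Finite ι]
  {x : ι → V} {φ : V →ₗ[ℝ] ℝ}

/-- a facet of `A` that contains `B` and avoids `j` -/
theorem exists_facet_avoid_in {A B : Set ι} (hA : Face x A) (hB : Face x B) (hBA : B ⊆ A)
    {j : ι} (hjA : j ∈ A) (hj : j ∉ B) :
    ∃ F, Face x F ∧ rk x F + 1 = rk x A ∧ B ⊆ F ∧ F ⊆ A ∧ j ∉ F := by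
  induction' hn : rk x A - rk x B using Nat.strong_induction_on with n ih
    generalizing B
  have hss : B ⊂ A := hBA.ssubset_of_ne fun h => hj (h ▸ hjA)
  have hlt := rk_lt hB hss
  by_cases h1 : rk x B + 1 = rk x A
  · exact ⟨B, hB, h1, subset_rfl, hBA, hj⟩
  · have step : ∃ B', Face x B' ∧ B ⊆ B' ∧ B' ⊆ A ∧ rk x B' = rk x B + 1 ∧ j ∉ B' := by
      obtain ⟨l, h0, hl⟩ := hB
      obtain ⟨G, g1, g2, g3, g4, g5⟩ := up hA ⟨l, h0, hl⟩ hBA h0 hjA (hl j hj)
      by_cases hjG : j ∈ G
      · have hGss : G ⊂ A := by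
          refine g3.ssubset_of_ne ?_
          rintro rfl
          omega
        obtain ⟨k, hkA, hk⟩ := exists_of_ssubset hGss
        obtain ⟨m, m0, m1⟩ := g1
        obtain ⟨G', k1, k2, k3, k4, k5⟩ := up hA ⟨l, h0, hl⟩ hBA
          (fun i hi => m0 i (g2 hi)) hkA (m1 k hk)
        refine ⟨G', k1, k2, k3, k4, fun h => ?_⟩
        have := k5 j h hj
        rw [m0 j hjG] at this
        exact lt_irrefl _ this
      · exact ⟨G, g1, g2, g3, g4, hjG⟩
    obtain ⟨B', b1, b2, b3, b4, b5⟩ := step
    obtain ⟨F, f1, f2, f3, f4, f5⟩ := ih (rk x A - rk x B') (by omega) b1 b3 b5 rfl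
    exact ⟨F, f1, f2, b2.trans f3, f4, f5⟩

omit [FiniteDimensional ℝ V] [Finite ι] in
/-- a functional that vanishes on a subspace and is positive at a point outside -/
theorem exists_pos_functional {W : Submodule ℝ V} {p : V} (hp : p ∉ W) :
    ∃ f : V →ₗ[ℝ] ℝ, 0 < f p ∧ ∀ w ∈ W, f w = 0 := by
  obtain ⟨f, hf, hW⟩ := Submodule.exists_le_ker_of_notMem hp
  rcases lt_or_gt_of_ne hf with h | h
  · exact ⟨-f, by simpa using h, fun w hw => by
      have : f w = 0 := hW hw
      simp [this]⟩
  · exact ⟨f, h, fun w hw => hW hw⟩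

/-- The facets of `A` that contain `T` and avoid `z` are connected by walls. -/
theorem anti_aux {A : Set ι} {z : ι} (hA : Face x A) (hz : z ∈ A) {m : ℕ}
    (hm : rk x A = m + 2) (n : ℕ) :
    ∀ {T : Set ι}, Face x T → T ⊆ A → z ∉ T → rk x A = rk x T + 1 + n →
      ∀ {F F' : Set ι}, Face x F → Face x F' → F ⊆ A → F' ⊆ A → T ⊆ F → T ⊆ F' →
        rk x F = m + 1 → rk x F' = m + 1 → z ∉ F → z ∉ F' → Reach x (A \ {z}) m F F' := by
  induction' n using Nat.strong_induction_on with n ih
  intro T hT hTA hzT hrT F F' hF hF' hFA hF'A hTF hTF' hrF hrF' hzF hzF'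
  have good : ∀ {H : Set ι}, Face x H → H ⊆ A → rk x H = m + 1 → z ∉ H →
      Good x (A \ {z}) m H := by
    intro H h1 h2 h3 h4
    refine ⟨h1, fun i hi => ⟨h2 hi, ?_⟩, h3⟩
    rintro rfl
    exact h4 hi
  have hgF := good hF hFA hrF hzF
  have hgF' := good hF' hF'A hrF' hzF'
  -- the intersection
  have hint := hF.inter hF'
  have hTint : T ⊆ F ∩ F' := subset_inter hTF hTF'
  by_cases h1 : rk x T < rk x (F ∩ F')
  · -- larger common face
    have h2 := rk_mono (x := x) (inter_subset_left : F ∩ F' ⊆ F)
    exact ih (rk x A - rk x (F ∩ F') - 1) (by omega) hint (inter_subset_left.trans hFA)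
      (fun h => hzF h.1) (by omega) hF hF' hFA hF'A inter_subset_left inter_subset_right
      hrF hrF' hzF hzF'
  · have hTeq : T = F ∩ F' := eq_of_rk hT hTint (not_lt.1 h1)
    rcases Nat.lt_or_ge n 2 with hn | hn
    · rcases Nat.eq_zero_or_pos n with h0 | h0
      · -- corank one
        subst h0
        have e1 : T = F := eq_of_rk hT hTF (by omega)
        have e2 : T = F' := eq_of_rk hT hTF' (by omega)
        rw [← e1, ← e2]
        rw [← e1] at hgF
        exact Reach.refl' hgF
      · -- corank two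
        exact reach_of_common hgF hgF' hTF hTF' (by omega)
    · -- the functionals of the two facets
      obtain ⟨g, g0, g1⟩ := hF'
      have hF' : Face x F' := ⟨g, g0, g1⟩
      -- a vertex of `F'`
      obtain ⟨j', hj'F', hj'T⟩ : ∃ j' ∈ F', j' ∉ T := by
        by_contra hcon
        push Not at hcon
        have := rk_mono (x := x) hcon
        omega
      have hj'F : j' ∉ F := fun h => hj'T (by rw [hTeq]; exact ⟨h, hj'F'⟩)
      -- `k`
      have hk : x j' ∉ Submodule.span ℝ (x '' insert z T) := by
        intro h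
        rw [image_insert_eq, Submodule.mem_span_insert] at h
        obtain ⟨α, t, ht, h⟩ := h
        have e1 := congrArg g h
        have e2 : g t = 0 := by
          have := zero_on_span (x := x) (l := g) (A := T) (fun i hi => g0 i (hTF' hi)) ht
          exact this
        rw [map_add, map_smul, e2, g0 j' hj'F', add_zero, smul_eq_mul] at e1
        have e3 : α = 0 := by
          rcases mul_eq_zero.1 e1.symm with h' | h'
          · exact h'
          · exact absurd h' (g1 z hzF').ne'
        rw [e3, zero_smul, zero_add] at h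
        exact hj'T (mem_of_span hT (by rw [h]; exact ht))
      obtain ⟨k, k1, k0⟩ := exists_pos_functional hk
      -- `h`
      obtain ⟨j, hjF, hj⟩ : ∃ j ∈ F, x j ∉ Submodule.span ℝ (x '' insert z (insert j' T)) := by
        by_contra hcon
        push Not at hcon
        have hle : Submodule.span ℝ (x '' F) ≤
            Submodule.span ℝ (x '' insert z (insert j' T)) := by
          rw [Submodule.span_le]
          rintro _ ⟨i, hi, rfl⟩
          exact hcon i hi
        have hr : rk x (insert z (insert j' T)) ≤ rk x T + 2 := by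
          have e1 := rk_union_le (x := x) {z} (insert j' T)
          have e2 := rk_union_le (x := x) {j'} T
          have e3 := rk_le_ncard (x := x) ({z} : Set ι)
          have e4 := rk_le_ncard (x := x) ({j'} : Set ι)
          rw [ncard_singleton] at e3 e4
          rw [singleton_union] at e1 e2
          omega
        have heq : Submodule.span ℝ (x '' F) =
            Submodule.span ℝ (x '' insert z (insert j' T)) := by
          refine Submodule.eq_of_le_of_finrank_le hle ?_
          have e5 : rk x F = m + 1 := hrF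
          have : rk x (insert z (insert j' T)) ≤ rk x F := by omega
          exact this
        apply hzF
        apply mem_of_span hF
        rw [heq]
        exact Submodule.subset_span ⟨z, by simp, rfl⟩
      obtain ⟨h, h1', h0'⟩ := exists_pos_functional hj
      -- the combination
      obtain ⟨ε, hε, hεj⟩ : ∃ ε : ℝ, 0 < ε ∧ 0 < h (x j) + ε * k (x j) := by
        refine ⟨h (x j) / (2 * (|k (x j)| + 1)), by positivity, ?_⟩
        have e1 := neg_abs_le (k (x j))
        have e2 : 0 ≤ |k (x j)| := abs_nonneg _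
        have e3 : -(h (x j) / 2) ≤ h (x j) / (2 * (|k (x j)| + 1)) * k (x j) := by
          have e4 : h (x j) / (2 * (|k (x j)| + 1)) * (-|k (x j)|) ≤
              h (x j) / (2 * (|k (x j)| + 1)) * k (x j) :=
            mul_le_mul_of_nonneg_left e1 (by positivity)
          refine le_trans ?_ e4
          rw [div_mul_eq_mul_div, neg_le_iff_add_nonneg, ← sub_nonneg]
          have : h (x j) * -|k (x j)| / (2 * (|k (x j)| + 1)) + h (x j) / 2 - 0 =
              h (x j) / (2 * (|k (x j)| + 1)) := by
            field_simp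
            ring
          rw [this]
          positivity
        linarith
      set ψ : V →ₗ[ℝ] ℝ := h + ε • k with hψ
      have hψj : 0 < ψ (x j) := by
        simp only [hψ, LinearMap.add_apply, LinearMap.smul_apply, smul_eq_mul]
        exact hεj
      have hψj' : 0 < ψ (x j') := by
        simp only [hψ, LinearMap.add_apply, LinearMap.smul_apply, smul_eq_mul]
        rw [h0' _ (Submodule.subset_span ⟨j', by simp, rfl⟩), zero_add]
        positivity
      have hψz : ψ (x z) = 0 := by
        simp only [hψ, LinearMap.add_apply, LinearMap.smul_apply, smul_eq_mul]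
        rw [h0' _ (Submodule.subset_span ⟨z, by simp, rfl⟩),
          k0 _ (Submodule.subset_span ⟨z, by simp, rfl⟩)]
        simp
      have hψT : ∀ i ∈ T, ψ (x i) = 0 := by
        intro i hi
        simp only [hψ, LinearMap.add_apply, LinearMap.smul_apply, smul_eq_mul]
        rw [h0' _ (Submodule.subset_span ⟨i, by simp [hi], rfl⟩),
          k0 _ (Submodule.subset_span ⟨i, by simp [hi], rfl⟩)]
        simp
      -- the contraction
      obtain ⟨φ', hφ'⟩ := con_acyclic hT
      have hjT : j ∉ T := fun h' => by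
        rw [hψT j h'] at hψj
        exact lt_irrefl _ hψj
      set ψ' := down T ψ hψT with hψ'
      have face' : ∀ {B : Set ι}, Face x B → T ⊆ B → Face (con x T) (tr T B) := by
        intro B hB hTB
        rw [face_con, ext_tr hTB]; exact hB
      obtain ⟨R, hRF, hR, hRpos⟩ := pos_atom hφ' (face' hF hTF) (ψ := ψ') (j := ⟨j, hjT⟩) hjF
        hψj
      obtain ⟨R', hR'F', hR', hR'pos⟩ := pos_atom hφ' (face' hF' hTF') (ψ := ψ')
        (j := ⟨j', hj'T⟩) hj'F' hψj'
      have hRA : R ⊆ tr T A := fun i hi => hFA (hRF hi)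
      have hR'A : R' ⊆ tr T A := fun i hi => hF'A (hR'F' hi)
      have hconn := connected hφ' (face' hA hTA) ψ' hR hRA hRpos hR' hR'A hR'pos
      have hzpos : ∀ {G : Set {i // i ∉ T}}, (∀ i ∈ G, 0 < ψ' (con x T i)) → z ∉ ext T G := by
        rintro G hG (h' | ⟨i, hi, h'⟩)
        · exact hzT h'
        · have := hG i hi
          rw [hψ', down_con, h', hψz] at this
          exact lt_irrefl _ this
      have hextA : ∀ {G : Set {i // i ∉ T}}, G ⊆ tr T A → ext T G ⊆ A := by
        intro G hG
        rw [← ext_tr hTA]; exact ext_mono hG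
      have hrext : ∀ {G : Set {i // i ∉ T}}, rk x (ext T G) = rk (con x T) G + rk x T :=
        fun {G} => (rk_con (x := x) (T := T) (A := G)).symm
      -- two facets hover a common atom
      have hover : ∀ {Q : Set {i // i ∉ T}}, Atom (con x T) Q → Q ⊆ tr T A → z ∉ ext T Q →
          ∀ {H H' : Set ι}, Face x H → Face x H' → H ⊆ A → H' ⊆ A → ext T Q ⊆ H →
          ext T Q ⊆ H' → rk x H = m + 1 → rk x H' = m + 1 → z ∉ H → z ∉ H' →
          Reach x (A \ {z}) m H H' := by
        intro Q hQ hQA hzQ H H' a1 a2 a3 a4 a5 a6 a7 a8 a9 a10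
        have h2 : rk x (ext T Q) = 1 + rk x T := by rw [hrext, hQ.2]
        exact ih (n - 1) (by omega) (face_con.1 hQ.1) (hextA hQA) hzQ (by omega) a1 a2 a3 a4
          a5 a6 a7 a8 a9 a10
      have main : ∀ Q, ReflTransGen (AdjPos (con x T) (tr T A) ψ') R Q →
          Atom (con x T) Q ∧ Q ⊆ tr T A ∧ z ∉ ext T Q ∧
            ∃ H, ext T Q ⊆ H ∧ Reach x (A \ {z}) m F H := by
        intro Q hQ
        induction hQ with
        | refl =>
          refine ⟨hR, hRA, hzpos hRpos, F, ?_, Reach.refl' hgF⟩
          rw [← ext_tr hTF]; exact ext_mono hRF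
        | tail _ hstep ih2 =>
          obtain ⟨b1, b2, b3, H, b4, b5⟩ := ih2
          obtain ⟨G, c1, c2, c3, c4, c5, c6, c7, c8⟩ := hstep
          have hzG := hzpos c4
          obtain ⟨H', d1, d2, d3, d4, d5⟩ := exists_facet_avoid_in hA (face_con.1 c1)
            (hextA c3) hz hzG
          have e1 := hover b1 b2 b3 b5.2.1.1 d1 (fun i hi => (b5.2.1.2.1 hi).1) d4 b4
            ((ext_mono c5).trans d3) b5.2.1.2.2 (by omega) (fun h' => (b5.2.1.2.1 h').2 rfl) d5
          exact ⟨c8, c6.trans c3, fun h' => hzG (ext_mono c6 h'), H',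
            (ext_mono c6).trans d3, b5.trans e1⟩
      obtain ⟨-, -, hzR', H, hRH, hH⟩ := main R' hconn
      have e1 := hover hR' hR'A hzR' hH.2.1.1 hF' (fun i hi => (hH.2.1.2.1 hi).1) hF'A hRH
        (by rw [← ext_tr hTF']; exact ext_mono hR'F') hH.2.1.2.2 hrF'
        (fun h' => (hH.2.1.2.1 h').2 rfl) hzF'
      exact hH.trans e1

/-- The facets of `A` that avoid `z` are connected by walls. -/
theorem anti (hφ : ∀ i, 0 < φ (x i)) {A : Set ι} {z : ι} (hA : Face x A) (hz : z ∈ A) {m : ℕ}
    (hm : rk x A = m + 2) {F F' : Set ι} (hF : Face x F) (hF' : Face x F') (hFA : F ⊆ A)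
    (hF'A : F' ⊆ A) (hrF : rk x F = m + 1) (hrF' : rk x F' = m + 1) (hzF : z ∉ F)
    (hzF' : z ∉ F') : Reach x (A \ {z}) m F F' :=
  anti_aux hA hz hm (m + 1) (face_empty hφ) (empty_subset _) (notMem_empty z)
    (by rw [rk_empty]; omega) hF hF' hFA hF'A (empty_subset _) (empty_subset _) hrF hrF' hzF hzF'

end Pool.Agent.Lock
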