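import Pool.Agent.LockFig.Real
import Pool.Agent.Lock.ClsHer

set_option autoImplicit false

/-!
# MP_b82809_co, the class of triples closed under faces and vertex figures

Lockeberg's conjecture for two vertices with a common neighbour `x` follows from the conjecture
for the vertex figure at `x`. It holds for all `d`-polytopes with at most `d + 5` vertices.
-/

namespace Pool.Agent.LockFig.ClassOk

open Module

/-- `P` is a polytope: the convex hull of a finite set of points. -/
def IsPolytope {n : ℕ} (P : Set (EuclideanSpace ℝ (Fin n))) : Prop :=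
  ∃ S : Finset (EuclideanSpace ℝ (Fin n)), P = convexHull ℝ (S : Set (EuclideanSpace ℝ (Fin n)))

/-- The dimension of a nonempty set: the dimension of the space of directions of its affine
span. -/
noncomputable def dim {n : ℕ} (F : Set (EuclideanSpace ℝ (Fin n))) : ℕ :=
  finrank ℝ (vectorSpan ℝ F)

/-- `F` is a face of `P`: a nonempty set of the form `{x ∈ P | ∀ y ∈ P, l y ≤ l x}` for a linear
functional `l` (with `l = 0` this is `P` itself). -/
def IsFace {n : ℕ} (P F : Set (EuclideanSpace ℝ (Fin n))) : Prop :=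
  F.Nonempty ∧ IsExposed ℝ P F

/-- `v` is a vertex of `P`: an extreme point. -/
def IsVertex {n : ℕ} (P : Set (EuclideanSpace ℝ (Fin n))) (v : EuclideanSpace ℝ (Fin n)) : Prop :=
  v ∈ P.extremePoints ℝ

/-- `L` is a path of `m`-faces of `P` from `v` to `w`: a nonempty finite sequence of faces of `P`
of dimension `m`, the first contains `v`, the last contains `w`, and the intersection of any two
consecutive ones is nonempty of dimension `m - 1`. -/
structure IsPath {n : ℕ} (P : Set (EuclideanSpace ℝ (Fin n))) (m : ℕ)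
    (v w : EuclideanSpace ℝ (Fin n)) (L : List (Set (EuclideanSpace ℝ (Fin n)))) : Prop where
  faces : ∀ F ∈ L, IsFace P F ∧ dim F = m
  start : ∃ F, L.head? = some F ∧ v ∈ F
  finish : ∃ F, L.getLast? = some F ∧ w ∈ F
  steps : L.IsChain fun F F' => (F ∩ F').Nonempty ∧ dim (F ∩ F') + 1 = m

/-- The type of the vertices of `Q`. -/
abbrev Vert {n : ℕ} (Q : Set (EuclideanSpace ℝ (Fin n))) : Type := {p // p ∈ Q.extremePoints ℝ}

/-- The type of the neighbours of `x` in `P`: the vertices `p ≠ x` of `P` such that the segment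
from `x` to `p` is a face of `P`. -/
abbrev Nbr {n : ℕ} (P : Set (EuclideanSpace ℝ (Fin n))) (x : EuclideanSpace ℝ (Fin n)) : Type :=
  {p // p ∈ P.extremePoints ℝ ∧ x ≠ p ∧ IsFace P (segment ℝ x p)}

/-- `Q` is, by the bijection `e` of the neighbours of `x` in `P` with the vertices of `Q`, the
vertex figure of `P` at `x`: the vertex sets of the faces of `Q` are the images of the nonempty
sets `{p | p ∈ F}` of neighbours, `F` a face of `P` that contains `x`. -/
def IsFigure {n m : ℕ} (P : Set (EuclideanSpace ℝ (Fin n))) (x : EuclideanSpace ℝ (Fin n))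
    (Q : Set (EuclideanSpace ℝ (Fin m))) (e : Nbr P x ≃ Vert Q) : Prop :=
  ∀ C : Set (Nbr P x), C.Nonempty →
    ((∃ G, IsFace Q G ∧ e '' C = {q | q.1 ∈ G}) ↔ ∃ F, IsFace P F ∧ x ∈ F ∧ C = {p | p.1 ∈ F})

/-- The smallest class of triples `(P, v, w)` such that
* `(P, v, w)` is in the class if `P` has dimension at most three,
* `(P, v, w)` is in the class if `v` and `w` lie in a face `G` of `P` with `(G, v, w)` in the
  class,
* `(P, p, q)` is in the class if `p` and `q` are neighbours of a vertex `x` of `P`, `Q` is a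
  polytope which is by `e` the vertex figure of `P` at `x`, and `(Q, e p, e q)` is in the class. -/
inductive Ok : ∀ {n : ℕ}, Set (EuclideanSpace ℝ (Fin n)) → EuclideanSpace ℝ (Fin n) →
    EuclideanSpace ℝ (Fin n) → Prop
  | low {n : ℕ} {P : Set (EuclideanSpace ℝ (Fin n))} {v w : EuclideanSpace ℝ (Fin n)}
      (hd : dim P ≤ 3) : Ok P v w
  | face {n : ℕ} {P G : Set (EuclideanSpace ℝ (Fin n))} {v w : EuclideanSpace ℝ (Fin n)}
      (hG : IsFace P G) (hv : v ∈ G) (hw : w ∈ G) (h : Ok G v w) : Ok P v w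
  | figure {n m : ℕ} {P : Set (EuclideanSpace ℝ (Fin n))} {Q : Set (EuclideanSpace ℝ (Fin m))}
      {x : EuclideanSpace ℝ (Fin n)} (hx : IsVertex P x) (hQ : IsPolytope Q)
      (e : Nbr P x ≃ Vert Q) (he : IsFigure P x Q e) (p q : Nbr P x)
      (h : Ok Q (e p).1 (e q).1) : Ok P p.1 q.1

section proof

open Pool.Agent.Lock

theorem IsPolytope.pt {n : ℕ} {P : Set (EuclideanSpace ℝ (Fin n))} (h : IsPolytope P) :
    Pt P := by
  obtain ⟨S, rfl⟩ := h
  exact pt_of_hull S

theorem face_polytope {n : ℕ} {P F : Set (EuclideanSpace ℝ (Fin n))} (hP : IsPolytope P)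
    (hF : IsFace P F) : IsPolytope F := by
  have h := hP.pt
  have hfin : (F ∩ P.extremePoints ℝ).Finite := h.fin.subset Set.inter_subset_right
  refine ⟨hfin.toFinset, ?_⟩
  rw [Set.Finite.coe_toFinset]
  exact hull_eq h.cpt h.cvx h.fin F hF.2

theorem pts_pair {n : ℕ} {P : Set (EuclideanSpace ℝ (Fin n))} (a b : Vert P) :
    pts P {a, b} = segment ℝ a.1 b.1 := by
  rw [pts, Set.image_pair, convexHull_pair]

/-- edges -/
theorem edge_iff {n : ℕ} {P : Set (EuclideanSpace ℝ (Fin n))} (hP : Pt P) (a b : Vert P) :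
    Face (vec P) {a, b} ↔ IsFace P (segment ℝ a.1 b.1) := by
  constructor
  · intro h
    obtain ⟨h1, h2, -⟩ := exposed_of_face hP.cpt hP.cvx hP.fin h ⟨a, by simp⟩
    rw [pts_pair] at h1 h2
    exact ⟨h2, h1⟩
  · rintro ⟨h1, h2⟩
    have h3 := (face_of_exposed hP.cpt hP.cvx hP.fin h2 h1).1
    have h4 : {p : {p // p ∈ P.extremePoints ℝ} | p.1 ∈ segment ℝ a.1 b.1} = {a, b} := by
      ext p
      constructor
      · intro h
        have h5 := (mem_extremePoints_iff_forall_segment.1 p.2).2 a.1 (extremePoints_subset a.2)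
          b.1 (extremePoints_subset b.2) h
        rcases h5 with h5 | h5
        · exact Or.inl (Subtype.ext h5.symm)
        · exact Or.inr (Subtype.ext h5.symm)
      · rintro (rfl | rfl)
        · exact left_mem_segment ℝ _ _
        · exact right_mem_segment ℝ _ _
    rwa [h4] at h3

theorem faceSet_iff {n : ℕ} {P : Set (EuclideanSpace ℝ (Fin n))} (hP : Pt P) {A : Set (Vert P)}
    (hne : A.Nonempty) : Face (vec P) A ↔ ∃ G, IsFace P G ∧ A = {q | q.1 ∈ G} := by
  rw [face_vec_iff hP hne]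
  rfl

/-- the inclusion of the neighbours -/
def nin {n : ℕ} {P : Set (EuclideanSpace ℝ (Fin n))} {x : EuclideanSpace ℝ (Fin n)} :
    Nbr P x → Vert P := fun p => ⟨p.1, p.2.1⟩

theorem figure_of_isFigure {n m : ℕ} {P : Set (EuclideanSpace ℝ (Fin n))}
    {Q : Set (EuclideanSpace ℝ (Fin m))} {x : EuclideanSpace ℝ (Fin n)} (hx : IsVertex P x)
    (hP : Pt P) (hQ : Pt Q) (e : Nbr P x ≃ Vert Q) (he : IsFigure P x Q e) :
    Figure (vec P) (vec Q) (⟨x, hx⟩ : Vert P) (nin ∘ e.symm) := by
  haveI : Finite (Vert P) := hP.fin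
  haveI : Finite (Vert Q) := hQ.fin
  refine ⟨?_, fun i => ?_, fun B => ?_⟩
  · intro q q' h
    apply e.symm.injective
    have h2 : nin (e.symm q) = nin (e.symm q') := h
    exact Subtype.ext (congrArg (fun z : Vert P => z.1) h2)
  · constructor
    · rintro ⟨q, rfl⟩
      refine ⟨fun h => (e.symm q).2.2.1 (congrArg Subtype.val h), ?_⟩
      exact (edge_iff hP ⟨x, hx⟩ (nin (e.symm q))).2 (e.symm q).2.2.2
    · rintro ⟨h1, h2⟩
      refine ⟨e ⟨i.1, i.2, fun h => h1 (Subtype.ext h), (edge_iff hP ⟨x, hx⟩ i).1 h2⟩, ?_⟩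
      simp [nin]
  · rcases Set.eq_empty_or_nonempty B with rfl | hne
    · refine ⟨fun _ => ⟨{⟨x, hx⟩}, (allExt hP.cvx hP.fin _).1, rfl, ?_⟩,
        fun _ => face_empty (vec_pos Q)⟩
      ext q
      simp only [Set.mem_empty_iff_false, Set.mem_preimage, Set.mem_singleton_iff,
        Function.comp_apply, false_iff]
      exact fun h => (e.symm q).2.2.1 (congrArg Subtype.val h).symm
    · have hC : e '' (e ⁻¹' B) = B := Set.image_preimage_eq B e.surjective
      have hCne : (e ⁻¹' B).Nonempty := hne.preimage e.surjective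
      have h1 := he (e ⁻¹' B) hCne
      rw [hC, ← faceSet_iff hQ hne] at h1
      rw [h1]
      constructor
      · rintro ⟨F, hF, hxF, hF2⟩
        refine ⟨vs P F, (face_vs hP hF.1 hF.2).1, hxF, ?_⟩
        ext q
        have h3 : e.symm q ∈ e ⁻¹' B ↔ e.symm q ∈ {p : Nbr P x | p.1 ∈ F} := by rw [hF2]
        have h4 : e.symm q ∈ e ⁻¹' B ↔ q ∈ B := by
          rw [Set.mem_preimage, Equiv.apply_symm_apply]
        rw [← h4, h3]
        exact Iff.rfl
      · rintro ⟨A, hA, hxA, hB⟩
        obtain ⟨h3, h4, h5⟩ := exposed_of_face hP.cpt hP.cvx hP.fin hA ⟨_, hxA⟩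
        refine ⟨pts P A, ⟨h4, h3⟩, ?_, ?_⟩
        · have : (⟨x, hx⟩ : Vert P) ∈ {p : Vert P | p.1 ∈ pts P A} := by rw [h5]; exact hxA
          exact this
        · ext p
          rw [hB]
          have : nin p ∈ {q : Vert P | q.1 ∈ pts P A} ↔ nin p ∈ A := by rw [h5]
          have h6 : p ∈ e ⁻¹' ((nin ∘ e.symm) ⁻¹' A) ↔ nin p ∈ A := by
            rw [Set.mem_preimage, Set.mem_preimage, Function.comp_apply, Equiv.symm_apply_apply]
          rw [h6]
          exact this.symm

theorem Ok.lp {n : ℕ} {P : Set (EuclideanSpace ℝ (Fin n))} {v w : EuclideanSpace ℝ (Fin n)}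
    (h : Ok P v w) : IsPolytope P → ∀ (hv : IsVertex P v) (hw : IsVertex P w), v ≠ w →
    ∀ (k : ℕ) (c : Fin k → ℕ), ∑ i, c i + 1 = rk (vec P) Set.univ →
      LP (vec P) Set.univ (⟨v, hv⟩ : Vert P) ⟨w, hw⟩ c := by
  induction h with
  | low hd =>
    intro hP hv hw hvw k c hc
    exact hl_vec_low hP.pt hd _ Face.univ _ (Set.mem_univ _) _ (Set.mem_univ _)
      (fun h => hvw (congrArg Subtype.val h)) k c hc
  | @face n P G v w hG hvG hwG _ ih =>
    intro hP hv hw hvw k c hc
    have hv' : IsVertex G v := by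
      rw [IsVertex, hG.2.isExtreme.extremePoints_eq]; exact ⟨hvG, hv⟩
    have hw' : IsVertex G w := by
      rw [IsVertex, hG.2.isExtreme.extremePoints_eq]; exact ⟨hwG, hw⟩
    exact lp_vec_lift_pair hP.pt hG.2 (a := ⟨v, hv'⟩) (b := ⟨w, hw'⟩)
      (fun h => hvw (congrArg Subtype.val h))
      (fun c h => ih (face_polytope hP hG) hv' hw' hvw k c h) c hc
  | @figure n m P Q x hx hQ e he p q _ ih =>
    intro hP hv hw hvw k c hc
    haveI : Finite (Vert P) := hP.pt.fin
    haveI : Finite (Vert Q) := hQ.pt.fin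
    have hfig := figure_of_isFigure hx hP.pt hQ.pt e he
    have hne : e p ≠ e q := fun h => hvw (congrArg Subtype.val (e.injective h))
    have h1 := hfig.lp (vec_pos P) (allExt hP.pt.cvx hP.pt.fin) (vec_pos Q) hne
      (κ' := Fin k) (fun c' hc' => ih hQ (e p).2 (e q).2
        (fun h => hne (Subtype.ext h)) k c' hc') c hc
    have e1 : (nin ∘ e.symm) (e p) = (⟨p.1, hv⟩ : Vert P) := by simp [nin]
    have e2 : (nin ∘ e.symm) (e q) = (⟨q.1, hw⟩ : Vert P) := by simp [nin]
    rw [e1, e2] at h1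
    exact h1

theorem card_vert {n : ℕ} (P : Set (EuclideanSpace ℝ (Fin n))) :
    Nat.card (Vert P) = {p | IsVertex P p}.ncard := Nat.card_coe_set_eq _

/-- Every vertex has a vertex figure. -/
theorem exists_figure {n : ℕ} {P : Set (EuclideanSpace ℝ (Fin n))} (hP : IsPolytope P)
    (z : Vert P) (hne : Nonempty (Nbr P z.1)) :
    ∃ (m : ℕ) (Q : Set (EuclideanSpace ℝ (Fin m))) (e : Nbr P z.1 ≃ Vert Q), IsPolytope Q ∧
      IsFigure P z.1 Q e ∧ dim Q + 1 = dim P ∧
      {p | IsVertex Q p}.ncard + 1 ≤ {p | IsVertex P p}.ncard := by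
  have hPt := hP.pt
  haveI : Finite (Vert P) := hPt.fin
  have hφ := vec_pos P
  have hE : AllExt (vec P) := allExt hPt.cvx hPt.fin
  have hPne : P.Nonempty := ⟨z.1, extremePoints_subset z.2⟩
  have hr : dim P + 1 = rk (vec P) Set.univ := dim_vec hPt hPne
  have hfig := figure_figc hφ hE z
  obtain ⟨φ', hφ'⟩ := figc_pos hE z
  have hEy := hfig.allExt hφ hE hφ'
  obtain ⟨m, Q, hQp, e', he'⟩ := exists_polytope' hφ' hEy
  have hQp : IsPolytope Q := hQp
  have hQt := hQp.pt
  haveI : Finite (Vert Q) := hQt.fin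
  -- the equivalence of the two kinds of neighbours
  let f : Nbr P z.1 ≃ Nb1 (vec P) z :=
    { toFun := fun p => ⟨⟨p.1, p.2.1⟩, fun h => p.2.2.1 (congrArg Subtype.val h),
        (edge_iff hPt z ⟨p.1, p.2.1⟩).2 p.2.2.2⟩
      invFun := fun k => ⟨k.1.1, k.1.2, fun h => k.2.1 (Subtype.ext h),
        (edge_iff hPt z k.1).1 k.2.2⟩
      left_inv := fun p => rfl
      right_inv := fun k => rfl }
  set e : Nbr P z.1 ≃ Vert Q := f.trans e' with he
  refine ⟨m, Q, e, hQp, ?_, ?_, ?_⟩
  · intro C hC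
    have himg : e '' C = e' '' (f '' C) := by
      rw [← Set.image_comp]; rfl
    rw [← faceSet_iff hQt (hC.image e), himg, ← he' (f '' C), hfig.face]
    constructor
    · rintro ⟨A, hA, hzA, hCA⟩
      obtain ⟨h3, h4, h5⟩ := exposed_of_face hPt.cpt hPt.cvx hPt.fin hA ⟨_, hzA⟩
      refine ⟨pts P A, ⟨h4, h3⟩, ?_, ?_⟩
      · have : z ∈ {p : Vert P | p.1 ∈ pts P A} := by rw [h5]; exact hzA
        exact this
      · ext p
        have h6 : p ∈ C ↔ f p ∈ f '' C := (f.injective.mem_set_image).symm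
        rw [h6, hCA]
        have h7 : (f p).1 ∈ {q : Vert P | q.1 ∈ pts P A} ↔ (f p).1 ∈ A := by rw [h5]
        exact h7.symm
    · rintro ⟨F, hF, hzF, hCF⟩
      refine ⟨vs P F, (face_vs hPt hF.1 hF.2).1, hzF, ?_⟩
      ext k
      obtain ⟨p, rfl⟩ := f.surjective k
      rw [f.injective.mem_set_image, hCF]
      rfl
  · have hsame := same_of_face hφ' (vec_pos Q) e' fun A _ => he' A
    have hrQ := hsame.rk Set.univ Face.univ
    rw [Set.image_univ, e'.range_eq_univ] at hrQ
    have hrz := hfig.rk hφ hE hφ' (Face.univ (x := figc (vec P) z))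
    rw [hfig.hat_univ hφ hE] at hrz
    obtain ⟨p⟩ := hne
    have hQne : Q.Nonempty := ⟨(e p).1, extremePoints_subset (e p).2⟩
    have hdQ : dim Q + 1 = rk (vec Q) Set.univ := dim_vec hQt hQne
    omega
  · rw [← card_vert Q, ← card_vert P, ← Nat.card_congr e']
    have h2 : Nat.card (Nb1 (vec P) z) = {i | z ≠ i ∧ Face (vec P) {z, i}}.ncard :=
      Nat.card_coe_set_eq _
    have h3 : ({i | z ≠ i ∧ Face (vec P) {z, i}} : Set (Vert P)).ncard + 1 ≤
        (Set.univ : Set (Vert P)).ncard := by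
      rw [← Set.ncard_insert_of_notMem (a := z) (fun h => h.1 rfl) (Set.toFinite _)]
      exact Set.ncard_le_ncard (Set.subset_univ _) (Set.toFinite _)
    rw [Set.ncard_univ] at h3
    rw [h2]
    exact h3

theorem ok_of_few (d : ℕ) : ∀ (n : ℕ) (P : Set (EuclideanSpace ℝ (Fin n))), IsPolytope P →
    dim P = d → {p | IsVertex P p}.ncard ≤ d + 5 → ∀ v w, IsVertex P v → IsVertex P w →
      v ≠ w → Ok P v w := by
  induction d with
  | zero => intro n P _ hd _ v w _ _ _; exact Ok.low (by omega)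
  | succ d ih =>
    intro n P hP hd hcard v w hv hw hvw
    by_cases hd3 : d + 1 ≤ 3
    · exact Ok.low (by omega)
    have hPt := hP.pt
    haveI : Finite (Vert P) := hPt.fin
    have hφ := vec_pos P
    have hE : AllExt (vec P) := allExt hPt.cvx hPt.fin
    have hne : P.Nonempty := ⟨v, extremePoints_subset hv⟩
    have hr : dim P + 1 = rk (vec P) Set.univ := dim_vec hPt hne
    set a : Vert P := ⟨v, hv⟩ with ha
    set b : Vert P := ⟨w, hw⟩ with hb
    have hab : a ≠ b := fun h => hvw (congrArg Subtype.val h)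
    by_cases hadj : Face (vec P) {a, b}
    · have hF := (edge_iff hPt a b).1 hadj
      refine Ok.face hF (left_mem_segment ℝ _ _) (right_mem_segment ℝ _ _) (Ok.low ?_)
      have h1 := dim_pts P (A := {a, b}) ⟨a, by simp⟩
      rw [rk_pair hE hab, pts_pair] at h1
      have h2 : dim (segment ℝ a.1 b.1) + 1 = 2 := h1
      omega
    · have hcn : Nat.card {p // p ∈ P.extremePoints ℝ} ≤ rk (vec P) Set.univ + 4 := by
        have : Nat.card {p // p ∈ P.extremePoints ℝ} = {p | IsVertex P p}.ncard := card_vert P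
        omega
      obtain ⟨z, ⟨za, hza⟩, ⟨zb, hzb⟩⟩ := exists_common hφ hE (by omega) hcn hab hadj
      set p : Nbr P z.1 := ⟨v, hv, fun h => za (Subtype.ext h), (edge_iff hPt z a).1 hza⟩ with hp
      set q : Nbr P z.1 := ⟨w, hw, fun h => zb (Subtype.ext h), (edge_iff hPt z b).1 hzb⟩ with hq
      obtain ⟨m, Q, e, hQp, hfig, hdim, hc⟩ := exists_figure hP z ⟨p⟩
      have hok := ih m Q hQp (by omega) (by omega) (e p).1 (e q).1 (e p).2 (e q).2 fun h => by
        have h1 : e p = e q := Subtype.ext h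
        exact hvw (congrArg Subtype.val (e.injective h1))
      exact Ok.figure z.2 hQp e hfig p q hok

theorem ok_of_common {n : ℕ} {P : Set (EuclideanSpace ℝ (Fin n))} (hP : IsPolytope P)
    (hd : dim P ≤ 4) {x : EuclideanSpace ℝ (Fin n)} (hx : IsVertex P x) (p q : Nbr P x) :
    Ok P p.1 q.1 := by
  obtain ⟨m, Q, e, hQp, hfig, hdim, hc⟩ := exists_figure hP ⟨x, hx⟩ ⟨p⟩
  exact Ok.figure hx hQp e hfig p q (Ok.low (by omega))

end proof

open Pool.Agent.Lock in
/-- **(1)** Let `v ≠ w` be vertices of the polytope `P` such that `(P, v, w)` is in the class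
`Ok`, and let `dim P = c 0 + ⋯ + c (k-1)` with all `c i ≥ 1`. Then there are `k` disjoint paths
from `v` to `w`, the `i`-th one a path of `c i`-faces of `P`.
**(2)** If `P` has at most `dim P + 5` vertices, then `(P, v, w)` is in the class for all
`v ≠ w`.
**(3)** If `dim P ≤ 4` and `p`, `q` are neighbours of the vertex `x`, then `(P, p, q)` is in the
class. -/
theorem result :
    (∀ (n : ℕ) (P : Set (EuclideanSpace ℝ (Fin n))), IsPolytope P →
      ∀ v w : EuclideanSpace ℝ (Fin n), IsVertex P v → IsVertex P w → v ≠ w → Ok P v w →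
      ∀ (k : ℕ) (c : Fin k → ℕ), (∀ i, 1 ≤ c i) → ∑ i, c i = dim P →
      ∃ L : Fin k → List (Set (EuclideanSpace ℝ (Fin n))),
        (∀ i, IsPath P (c i) v w (L i)) ∧
        ∀ i j, i ≠ j → ∀ F ∈ L i, ∀ F' ∈ L j, ∀ u, IsVertex P u → u ∈ F → u ∈ F' →
          u = v ∨ u = w) ∧
    (∀ (n : ℕ) (P : Set (EuclideanSpace ℝ (Fin n))), IsPolytope P →
      {p | IsVertex P p}.ncard ≤ dim P + 5 →
      ∀ v w : EuclideanSpace ℝ (Fin n), IsVertex P v → IsVertex P w → v ≠ w → Ok P v w) ∧
    (∀ (n : ℕ) (P : Set (EuclideanSpace ℝ (Fin n))), IsPolytope P → dim P ≤ 4 →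
      ∀ x : EuclideanSpace ℝ (Fin n), IsVertex P x → ∀ p q : Nbr P x, Ok P p.1 q.1) := by
  refine ⟨?_, ?_, ?_⟩
  · intro n P hP v w hv hw hvw hok k c hc hsum
    have hPt := hP.pt
    have hPne : P.Nonempty := ⟨v, extremePoints_subset hv⟩
    have hd := dim_vec hPt hPne
    have h1 := hok.lp hP hv hw hvw k c (by rw [hsum]; exact hd)
    obtain ⟨L, h2, h3⟩ := lists_of_lp hPt hc h1
    exact ⟨L, fun i => ⟨(h2 i).1, (h2 i).2.1, (h2 i).2.2.1, (h2 i).2.2.2⟩, h3⟩
  · intro n P hP hcard v w hv hw hvw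
    exact ok_of_few (dim P) n P hP rfl hcard v w hv hw hvw
  · intro n P hP hd x hx p q
    exact ok_of_common hP hd hx p q

end Pool.Agent.LockFig.ClassOk
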