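import Pool.Agent.LockFig.Anti

set_option autoImplicit false

/-!
# Lifting thick paths from a vertex figure
-/

namespace Pool.Agent.Lock

open Module Relation Set

variable {ι κ : Type*} {V W : Type*} [AddCommGroup V] [Module ℝ V] [AddCommGroup W] [Module ℝ W]

/-- `y` is the figure of the configuration `x` at the vertex `z`. -/
structure Figure (x : ι → V) (y : κ → W) (z : ι) (e : κ → ι) : Prop where
  inj : Function.Injective e
  nb : ∀ i, i ∈ range e ↔ z ≠ i ∧ Face x {z, i}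
  face : ∀ B : Set κ, Face y B ↔ ∃ A, Face x A ∧ z ∈ A ∧ B = e ⁻¹' A

open Classical in
/-- the face over a face of the figure -/
noncomputable def hat (x : ι → V) (z : ι) (e : κ → ι) (B : Set κ) : Set ι :=
  if h : ∃ A, Face x A ∧ z ∈ A ∧ B = e ⁻¹' A then h.choose else ∅

section

variable {x : ι → V} {y : κ → W} {z : ι} {e : κ → ι}

theorem Figure.hat_spec (h : Figure x y z e) {B : Set κ} (hB : Face y B) :
    Face x (hat x z e B) ∧ z ∈ hat x z e B ∧ B = e ⁻¹' (hat x z e B) := by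
  have h1 := (h.face B).1 hB
  rw [hat, dif_pos h1]
  exact h1.choose_spec

theorem Figure.z_notMem (h : Figure x y z e) (k : κ) : e k ≠ z := by
  intro hk
  exact ((h.nb (e k)).1 ⟨k, rfl⟩).1 hk.symm

theorem Figure.edge (h : Figure x y z e) (k : κ) : Face x {z, e k} :=
  ((h.nb (e k)).1 ⟨k, rfl⟩).2

theorem Figure.mem_hat (h : Figure x y z e) {B : Set κ} (hB : Face y B) (k : κ) :
    e k ∈ hat x z e B ↔ k ∈ B := by
  conv_rhs => rw [(h.hat_spec hB).2.2]
  exact Iff.rfl

/-- the set of all indices of faces over faces in `U` -/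
def upU (x : ι → V) (y : κ → W) (z : ι) (e : κ → ι) (U : Set κ) : Set ι :=
  {i | ∃ B, Face y B ∧ B ⊆ U ∧ i ∈ hat x z e B}

variable [FiniteDimensional ℝ V] [Finite ι] {φ : V →ₗ[ℝ] ℝ}

theorem Figure.le (h : Figure x y z e) (hφ : ∀ i, 0 < φ (x i)) (hE : AllExt x) {A A' : Set ι}
    (hA : Face x A) (hA' : Face x A') (hz : z ∈ A) (hz' : z ∈ A') (hs : e ⁻¹' A ⊆ e ⁻¹' A') :
    A ⊆ A' := by
  intro j hj
  by_contra hn
  obtain ⟨l, h0, h1⟩ := hA'
  obtain ⟨k, hkA, hk, hed⟩ := improve_ed hφ hE hA hz (h0 z hz') hj (h1 j hn)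
  obtain ⟨k', rfl⟩ := (h.nb k).2 ⟨hed.1, hed.2.1⟩
  have := h0 _ (hs hkA)
  rw [this] at hk
  exact lt_irrefl _ hk

theorem Figure.hat_eq (h : Figure x y z e) (hφ : ∀ i, 0 < φ (x i)) (hE : AllExt x) {A : Set ι}
    (hA : Face x A) (hz : z ∈ A) : hat x z e (e ⁻¹' A) = A := by
  obtain ⟨h1, h2, h3⟩ := h.hat_spec ((h.face _).2 ⟨A, hA, hz, rfl⟩)
  exact Subset.antisymm (h.le hφ hE h1 hA h2 hz h3.symm.subset) (h.le hφ hE hA h1 hz h2 h3.subset)

theorem Figure.hat_mono (h : Figure x y z e) (hφ : ∀ i, 0 < φ (x i)) (hE : AllExt x)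
    {B B' : Set κ} (hB : Face y B) (hB' : Face y B') (hs : B ⊆ B') :
    hat x z e B ⊆ hat x z e B' := by
  obtain ⟨h1, h2, h3⟩ := h.hat_spec hB
  obtain ⟨k1, k2, k3⟩ := h.hat_spec hB'
  exact h.le hφ hE h1 k1 h2 k2 (by rw [← h3, ← k3]; exact hs)

theorem Figure.hat_inter (h : Figure x y z e) (hφ : ∀ i, 0 < φ (x i)) (hE : AllExt x)
    {B B' : Set κ} (hB : Face y B) (hB' : Face y B') :
    hat x z e B ∩ hat x z e B' = hat x z e (B ∩ B') := by
  obtain ⟨h1, h2, h3⟩ := h.hat_spec hB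
  obtain ⟨k1, k2, k3⟩ := h.hat_spec hB'
  have := h.hat_eq hφ hE (h1.inter k1) ⟨h2, k2⟩
  rw [preimage_inter, ← h3, ← k3] at this
  exact this.symm

theorem Figure.hat_empty (h : Figure x y z e) (hφ : ∀ i, 0 < φ (x i)) (hE : AllExt x) :
    hat x z e ∅ = {z} := by
  have := h.hat_eq hφ hE (hE z).1 (mem_singleton z)
  have e1 : e ⁻¹' {z} = ∅ := by
    ext k
    simp only [mem_preimage, mem_singleton_iff, mem_empty_iff_false, iff_false]
    exact h.z_notMem k
  rwa [e1] at this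

theorem Figure.hat_single (h : Figure x y z e) (hφ : ∀ i, 0 < φ (x i)) (hE : AllExt x) (k : κ) :
    Face y {k} ∧ hat x z e {k} = {z, e k} := by
  have e1 : e ⁻¹' {z, e k} = {k} := by
    ext k'
    simp only [mem_preimage, mem_insert_iff, mem_singleton_iff]
    constructor
    · rintro (h1 | h1)
      · exact absurd h1 (h.z_notMem k')
      · exact h.inj h1
    · rintro rfl
      exact Or.inr rfl
  have h1 := h.hat_eq hφ hE (h.edge k) (mem_insert z _)
  rw [e1] at h1
  exact ⟨(h.face _).2 ⟨_, h.edge k, mem_insert z _, e1.symm⟩, h1⟩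

theorem Figure.hat_univ (h : Figure x y z e) (hφ : ∀ i, 0 < φ (x i)) (hE : AllExt x) :
    hat x z e univ = univ := by
  have := h.hat_eq hφ hE Face.univ (mem_univ z)
  rwa [preimage_univ] at this

variable [FiniteDimensional ℝ W] [Finite κ] {φ' : W →ₗ[ℝ] ℝ}

theorem Figure.rk (h : Figure x y z e) (hφ : ∀ i, 0 < φ (x i)) (hE : AllExt x)
    (hφ' : ∀ k, 0 < φ' (y k)) {B : Set κ} (hB : Face y B) :
    rk y B + 1 = rk x (hat x z e B) := by
  have hpos : ∀ {B : Set κ}, Face y B → 1 ≤ Lock.rk x (hat x z e B) := by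
    intro B hB
    have := rk_mono (x := x) (singleton_subset_iff.2 (h.hat_spec hB).2.1)
    rw [(hE z).2] at this
    exact this
  have key := rk_unique (x := y) hφ' (fun B => Lock.rk x (hat x z e B) - 1)
    (by simp only [h.hat_empty hφ hE, (hE z).2]) ?_ ?_ hB
  · rw [key]
    have := hpos hB
    omega
  · intro A B hA hB hAB
    have h1 := h.hat_mono hφ hE hA hB hAB.subset
    have h2 : hat x z e A ⊂ hat x z e B := by
      refine h1.ssubset_of_ne fun h3 => hAB.ne ?_
      rw [(h.hat_spec hA).2.2, (h.hat_spec hB).2.2, h3]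
    have h3 := rk_lt (h.hat_spec hA).1 h2
    have h4 := hpos hA
    omega
  · intro A hA hne
    obtain ⟨k, hk⟩ := hne
    obtain ⟨h1, h2, h3⟩ := h.hat_spec hA
    have hss : ({z} : Set ι) ⊂ hat x z e A := by
      refine (singleton_subset_iff.2 h2).ssubset_of_ne fun h4 => ?_
      have h5 := (h.mem_hat hA k).2 hk
      rw [← h4] at h5
      exact h.z_notMem k h5
    obtain ⟨F, f1, f2, f3, f4⟩ := exists_facet h1 (hE z).1 hss
    have hzF : z ∈ F := f2 rfl
    refine ⟨e ⁻¹' F, (h.face _).2 ⟨F, f1, hzF, rfl⟩, ?_, ?_⟩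
    · have hsub : e ⁻¹' F ⊆ A := by rw [h3]; exact preimage_mono f3
      refine ssubset_of_subset_of_ne hsub fun h5 => ?_
      · have h6 := h.hat_eq hφ hE f1 hzF
        rw [h5] at h6
        rw [h6] at f4
        omega
    · simp only [h.hat_eq hφ hE f1 hzF]
      have : 1 ≤ Lock.rk x F := by
        have := rk_mono (x := x) (singleton_subset_iff.2 hzF)
        rw [(hE z).2] at this
        exact this
      omega

theorem Figure.allExt (h : Figure x y z e) (hφ : ∀ i, 0 < φ (x i)) (hE : AllExt x)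
    (hφ' : ∀ k, 0 < φ' (y k)) : AllExt y := by
  intro k
  obtain ⟨h1, h2⟩ := h.hat_single hφ hE k
  refine ⟨h1, ?_⟩
  have h3 := h.rk hφ hE hφ' h1
  rw [h2, rk_pair hE (h.z_notMem k).symm] at h3
  omega

theorem Figure.good (h : Figure x y z e) (hφ : ∀ i, 0 < φ (x i)) (hE : AllExt x)
    (hφ' : ∀ k, 0 < φ' (y k)) {U : Set κ} {m : ℕ} {X : Set κ} (hX : Good y U m X) :
    Good x (upU x y z e U) (m + 1) (hat x z e X) := by
  refine ⟨(h.hat_spec hX.1).1, fun i hi => ⟨X, hX.1, hX.2.1, hi⟩, ?_⟩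
  rw [← h.rk hφ hE hφ' hX.1, hX.2.2]

/-- raised paths -/
theorem Figure.reach (h : Figure x y z e) (hφ : ∀ i, 0 < φ (x i)) (hE : AllExt x)
    (hφ' : ∀ k, 0 < φ' (y k)) {U : Set κ} {m : ℕ} {X Y : Set κ} (hXY : Reach y U m X Y) :
    Reach x (upU x y z e U) (m + 1) (hat x z e X) (hat x z e Y) := by
  refine ⟨h.good hφ hE hφ' hXY.1, h.good hφ hE hφ' hXY.2.1,
    hXY.2.2.lift (hat x z e) fun A B hAB => ?_⟩
  refine ⟨h.good hφ hE hφ' hAB.1, h.good hφ hE hφ' hAB.2.1, ?_⟩
  rw [h.hat_inter hφ hE hAB.1.1 hAB.2.1.1,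
    ← h.rk hφ hE hφ' (hAB.1.1.inter hAB.2.1.1), hAB.2.2]

/-- paths that avoid the vertex -/
theorem Figure.reach_avoid (h : Figure x y z e) (hφ : ∀ i, 0 < φ (x i)) (hE : AllExt x)
    (hφ' : ∀ k, 0 < φ' (y k)) {U : Set κ} {m : ℕ} {X Y : Set κ} (hXY : Reach y U m X Y)
    {H : Set ι} (hH : Face x H) (hHX : H ⊆ hat x z e X) (hrH : Lock.rk x H = m + 1)
    (hzH : z ∉ H) :
    ∀ {H' : Set ι}, Face x H' → H' ⊆ hat x z e Y → Lock.rk x H' = m + 1 → z ∉ H' →
      Reach x (upU x y z e U \ {z}) m H H' := by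
  obtain ⟨hX, hY, hr⟩ := hXY
  have sub : ∀ {B : Set κ}, Good y U m B → hat x z e B \ {z} ⊆ upU x y z e U \ {z} :=
    fun {B} hB i hi => ⟨⟨B, hB.1, hB.2.1, hi.1⟩, hi.2⟩
  have key : ∀ Z, ReflTransGen (Nb y U m) X Z → Good y U m Z ∧
      ∀ {H' : Set ι}, Face x H' → H' ⊆ hat x z e Z → Lock.rk x H' = m + 1 → z ∉ H' →
        Reach x (upU x y z e U \ {z}) m H H' := by
    intro Z hZ
    induction hZ with
    | refl =>
      refine ⟨hX, fun {H'} h1 h2 h3 h4 => ?_⟩
      exact (anti hφ (h.hat_spec hX.1).1 (h.hat_spec hX.1).2.1 (m := m)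
        (by rw [← h.rk hφ hE hφ' hX.1, hX.2.2]) hH h1 hHX h2 hrH h3 hzH h4).mono (sub hX)
    | @tail b c _ hs ih =>
      obtain ⟨hb, ihb⟩ := ih
      obtain ⟨-, hc, hbc⟩ := hs
      refine ⟨hc, fun {H'} h1 h2 h3 h4 => ?_⟩
      obtain ⟨b1, b2, b3⟩ := h.hat_spec hb.1
      obtain ⟨c1, c2, c3⟩ := h.hat_spec hc.1
      have hint := h.hat_inter hφ hE hb.1 hc.1
      have hrint : Lock.rk x (hat x z e b ∩ hat x z e c) = m + 1 := by
        rw [hint, ← h.rk hφ hE hφ' (hb.1.inter hc.1), hbc]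
      obtain ⟨Q, q1, q2, -, q3, q4⟩ := exists_facet_avoid_in (b1.inter c1) (face_empty hφ)
        (empty_subset _) ⟨b2, c2⟩ (notMem_empty z)
      have rb : Lock.rk x (hat x z e b) = m + 2 := by rw [← h.rk hφ hE hφ' hb.1, hb.2.2]
      have rc : Lock.rk x (hat x z e c) = m + 2 := by rw [← h.rk hφ hE hφ' hc.1, hc.2.2]
      obtain ⟨Yb, y1, y2, y3, y4, y5⟩ := exists_facet_avoid_in b1 q1
        (q3.trans inter_subset_left) b2 q4
      obtain ⟨Yc, k1, k2, k3, k4, k5⟩ := exists_facet_avoid_in c1 q1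
        (q3.trans inter_subset_right) c2 q4
      have r1 := ihb y1 y4 (by omega) y5
      have gc : Good x (upU x y z e U \ {z}) m Yc :=
        ⟨k1, (fun i hi => sub hc ⟨k4 hi, fun hh => k5 (by
          rw [mem_singleton_iff] at hh
          rw [← hh]; exact hi)⟩), by omega⟩
      have r2 := reach_of_common r1.2.1 gc y3 k3 (by omega)
      have r3 := (anti hφ c1 c2 (m := m) rc k1 h1 k4 h2 (by omega) h3 k5 h4).mono (sub hc)
      exact (r1.trans r2).trans r3
  intro H' h1 h2 h3 h4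
  exact (key Y hr).2 h1 h2 h3 h4

/-- Lifting from the vertex figure, when no face of rank three contains the three points. -/
theorem Figure.lp_aux (h : Figure x y z e) (hφ : ∀ i, 0 < φ (x i)) (hE : AllExt x)
    (hφ' : ∀ k, 0 < φ' (y k)) {a b : κ} (hab : a ≠ b)
    (hn : ∀ G, Face x G → z ∈ G → e a ∈ G → e b ∈ G → Lock.rk x G ≠ 3) {κ' : Type*}
    [Fintype κ'] (hL : ∀ c : κ' → ℕ, ∑ i, c i + 1 = Lock.rk y univ → LP y univ a b c)
    (c : κ' → ℕ) (hc : ∑ i, c i + 1 = Lock.rk x univ) : LP x univ (e a) (e b) c := by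
  classical
  have hEy := h.allExt hφ hE hφ'
  have hru := h.rk hφ hE hφ' (Face.univ (x := y))
  rw [h.hat_univ hφ hE] at hru
  have hr2 : 2 ≤ Lock.rk y univ := by
    have := rk_mono (x := y) (subset_univ {a, b})
    rwa [rk_pair hEy hab] at this
  obtain ⟨i₀, hi₀⟩ : ∃ i, 1 ≤ c i := by
    by_contra hcon
    push Not at hcon
    have : ∑ i, c i = 0 := Finset.sum_eq_zero fun i _ => by
      have := hcon i
      omega
    omega
  set c' : κ' → ℕ := Function.update c i₀ (c i₀ - 1) with hc'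
  have hsum : ∑ i, c' i + 1 = Lock.rk y univ := by
    have h1 := Finset.sum_update_of_mem (Finset.mem_univ i₀) c (c i₀ - 1)
    have h2 := Finset.sum_update_of_mem (Finset.mem_univ i₀) c (c i₀)
    rw [Function.update_eq_self] at h2
    rw [← hc'] at h1
    omega
  obtain ⟨U, -, hU, hd⟩ := hL c' hsum
  have c'self : c' i₀ = c i₀ - 1 := by rw [hc', Function.update_self]
  have c'ne : ∀ j, j ≠ i₀ → c' j = c j := fun j hj => by rw [hc', Function.update_of_ne hj]
  have hza := h.z_notMem a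
  have hzb := h.z_notMem b
  have heab : e a ≠ e b := fun h' => hab (h.inj h')
  -- intersections
  have key : ∀ i j, i ≠ j → 1 ≤ c' i → 1 ≤ c' j →
      upU x y z e (U i) ∩ upU x y z e (U j) ⊆ {z, e a, e b} := by
    rintro i j hij hi hj p ⟨⟨B, b1, b2, b3⟩, ⟨B', b4, b5, b6⟩⟩
    have hC : B ∩ B' ⊆ {a, b} := (inter_subset_inter b2 b5).trans (hd i j hij hi hj)
    have hCf := b1.inter b4
    have hp : p ∈ hat x z e (B ∩ B') := by
      rw [← h.hat_inter hφ hE b1 b4]; exact ⟨b3, b6⟩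
    obtain ⟨d1, d2, d3⟩ := h.hat_spec hCf
    by_cases ha : a ∈ B ∩ B'
    · by_cases hb : b ∈ B ∩ B'
      · exfalso
        have hCe : B ∩ B' = {a, b} := Subset.antisymm hC (by
          rintro _ (rfl | rfl)
          · exact ha
          · exact hb)
        refine hn _ d1 d2 ((h.mem_hat hCf a).2 ha) ((h.mem_hat hCf b).2 hb) ?_
        rw [← h.rk hφ hE hφ' hCf, hCe, rk_pair hEy hab]
      · have hCe : B ∩ B' ⊆ {a} := fun k hk => by
          rcases hC hk with hk' | hk'
          · exact hk'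
          · exact absurd (hk' ▸ hk) hb
        have := h.hat_mono hφ hE hCf (h.hat_single hφ hE a).1 hCe hp
        rw [(h.hat_single hφ hE a).2] at this
        rcases this with h1 | h1
        · exact Or.inl h1
        · exact Or.inr (Or.inl h1)
    · have hCe : B ∩ B' ⊆ {b} := fun k hk => by
        rcases hC hk with hk' | hk'
        · exact absurd (hk' ▸ hk) ha
        · exact hk'
      have := h.hat_mono hφ hE hCf (h.hat_single hφ hE b).1 hCe hp
      rw [(h.hat_single hφ hE b).2] at this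
      rcases this with h1 | h1
      · exact Or.inl h1
      · exact Or.inr (Or.inr h1)
  refine ⟨fun j => if j = i₀ then (if c i₀ = 1 then {e a, z, e b} else upU x y z e (U i₀))
    else upU x y z e (U j) \ {z}, fun j => subset_univ _, fun j hj => ?_, fun i j hij hi hj => ?_⟩
  · by_cases hji : j = i₀
    · subst hji
      simp only [if_true]
      by_cases h1 : c j = 1
      · rw [if_pos h1, h1]
        refine ⟨{z, e a}, {z, e b}, by simp, by simp, ?_⟩
        refine reach_of_common (R := {z}) ⟨h.edge a, ?_, rk_pair hE hza.symm⟩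
          ⟨h.edge b, ?_, rk_pair hE hzb.symm⟩ (by simp) (by simp) (hE z).2
        · rintro _ (rfl | rfl) <;> simp
        · rintro _ (rfl | rfl) <;> simp
      · rw [if_neg h1]
        obtain ⟨X, Y, hX, hY, hXY⟩ := hU j (by omega)
        have hr := h.reach hφ hE hφ' hXY
        rw [c'self, show c j - 1 + 1 = c j by omega] at hr
        exact ⟨hat x z e X, hat x z e Y, (h.mem_hat hXY.1.1 a).2 hX,
          (h.mem_hat hXY.2.1.1 b).2 hY, hr⟩
    · simp only [if_neg hji]
      have hcj := c'ne j hji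
      obtain ⟨X, Y, hX, hY, hXY⟩ := hU j (by omega)
      rw [hcj] at hXY
      obtain ⟨x1, x2, x3⟩ := h.hat_spec hXY.1.1
      obtain ⟨y1, y2, y3⟩ := h.hat_spec hXY.2.1.1
      have rX : Lock.rk x (hat x z e X) = c j + 2 := by
        rw [← h.rk hφ hE hφ' hXY.1.1, hXY.1.2.2]
      have rY : Lock.rk x (hat x z e Y) = c j + 2 := by
        rw [← h.rk hφ hE hφ' hXY.2.1.1, hXY.2.1.2.2]
      obtain ⟨H, f1, f2, f3, f4, f5⟩ := exists_facet_avoid_in x1 (hE (e a)).1
        (singleton_subset_iff.2 ((h.mem_hat hXY.1.1 a).2 hX)) x2 (j := z)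
        (fun h' => hza h'.symm)
      obtain ⟨H', g1, g2, g3, g4, g5⟩ := exists_facet_avoid_in y1 (hE (e b)).1
        (singleton_subset_iff.2 ((h.mem_hat hXY.2.1.1 b).2 hY)) y2 (j := z)
        (fun h' => hzb h'.symm)
      exact ⟨H, H', f3 rfl, g3 rfl,
        h.reach_avoid hφ hE hφ' hXY f1 f4 (by omega) f5 g1 g4 (by omega) g5⟩
  · -- disjointness
    have three : ∀ {k : κ'}, k ≠ i₀ → ∀ {p : ι}, p ∈ ({e a, z, e b} : Set ι) →
        p ∈ upU x y z e (U k) \ {z} → p ∈ ({e a, e b} : Set ι) := by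
      intro k hk p hp hp'
      rcases hp with hp | hp | hp
      · exact Or.inl hp
      · exact absurd hp hp'.2
      · exact Or.inr hp
    have drop : ∀ {p : ι}, p ∈ ({z, e a, e b} : Set ι) → p ∉ ({z} : Set ι) →
        p ∈ ({e a, e b} : Set ι) := by
      intro p hp hpz
      rcases hp with hp | hp
      · exact absurd hp hpz
      · exact hp
    by_cases hii : i = i₀
    · subst hii
      have hji : j ≠ i := hij.symm
      simp only [if_true, if_neg hji]
      rintro p ⟨hp, hp'⟩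
      by_cases h1 : c i = 1
      · rw [if_pos h1] at hp
        exact three hji hp hp'
      · rw [if_neg h1] at hp
        exact drop (key i j hij (by omega) (by rw [c'ne j hji]; exact hj) ⟨hp, hp'.1⟩) hp'.2
    · by_cases hji : j = i₀
      · subst hji
        simp only [if_true, if_neg hii]
        rintro p ⟨hp, hp'⟩
        by_cases h1 : c j = 1
        · rw [if_pos h1] at hp'
          exact three hii hp' hp
        · rw [if_neg h1] at hp'
          exact drop (key i j hij (by rw [c'ne i hii]; exact hi) (by omega) ⟨hp.1, hp'⟩) hp.2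
      · simp only [if_neg hii, if_neg hji]
        rintro p ⟨hp, hp'⟩
        exact drop (key i j hij (by rw [c'ne i hii]; exact hi) (by rw [c'ne j hji]; exact hj)
          ⟨hp.1, hp'.1⟩) hp.2

/-- Lifting from the vertex figure. -/
theorem Figure.lp (h : Figure x y z e) (hφ : ∀ i, 0 < φ (x i)) (hE : AllExt x)
    (hφ' : ∀ k, 0 < φ' (y k)) {a b : κ} (hab : a ≠ b) {κ' : Type*}
    [Fintype κ'] (hL : ∀ c : κ' → ℕ, ∑ i, c i + 1 = Lock.rk y univ → LP y univ a b c)
    (c : κ' → ℕ) (hc : ∑ i, c i + 1 = Lock.rk x univ) : LP x univ (e a) (e b) c := by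
  by_cases hG : ∃ G, Face x G ∧ e a ∈ G ∧ e b ∈ G ∧ Lock.rk x G = 3
  · obtain ⟨G, g1, g2, g3, g4⟩ := hG
    have heab : e a ≠ e b := fun h' => hab (h.inj h')
    refine lp_lift hφ hE g1 Face.univ (subset_univ _) g2 g3 (fun c₀ h5 => ?_) hc
    by_cases h6 : ∀ i, c₀ i ≤ 1
    · exact lp_ones hφ hE g1 g2 g3 heab h5 h6
    · push Not at h6
      obtain ⟨j, hj⟩ := h6
      have h7 := Finset.single_le_sum (f := c₀) (fun j _ => Nat.zero_le _) (Finset.mem_univ j)
      exact lp_single g1 g2 g3 h5 (i := j) (by omega)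
  · push Not at hG
    exact h.lp_aux hφ hE hφ' hab (fun G g1 _ g2 g3 => hG G g1 g2 g3) hL c hc

end

end Pool.Agent.Lock
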