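import Pool.Agent.LockFig.Fig

set_option autoImplicit false

/-!
# The figure of a vertex exists, and it is a polytope
-/

namespace Pool.Agent.Lock

open Module Relation Set

section config

variable {ι : Type*} {V : Type*} [AddCommGroup V] [Module ℝ V] [FiniteDimensional ℝ V] [Finite ι]
  {x : ι → V} {φ : V →ₗ[ℝ] ℝ}

/-- the neighbours of a vertex -/
abbrev Nb1 (x : ι → V) (z : ι) : Type _ := {i // z ≠ i ∧ Face x {z, i}}

/-- the configuration of the neighbours -/
def figc (x : ι → V) (z : ι) : Nb1 x z → V ⧸ Submodule.span ℝ (x '' {z}) :=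
  fun k => (Submodule.span ℝ (x '' {z})).mkQ (x k.1)

omit [FiniteDimensional ℝ V] [Finite ι] in
theorem figc_pos (hE : AllExt x) (z : ι) :
    ∃ φ' : V ⧸ Submodule.span ℝ (x '' {z}) →ₗ[ℝ] ℝ, ∀ k, 0 < φ' (figc x z k) := by
  obtain ⟨l, h0, h1⟩ := (hE z).1
  refine ⟨down {z} l h0, fun k => ?_⟩
  show 0 < l (x k.1)
  exact h1 _ fun h => k.2.1 (by rw [mem_singleton_iff] at h; exact h.symm)

theorem figure_figc (hφ : ∀ i, 0 < φ (x i)) (hE : AllExt x) (z : ι) :
    Figure x (figc x z) z Subtype.val := by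
  refine ⟨Subtype.val_injective, fun i => ?_, fun B => ?_⟩
  · constructor
    · rintro ⟨k, rfl⟩
      exact k.2
    · intro h
      exact ⟨⟨i, h⟩, rfl⟩
  · constructor
    · rintro ⟨l', h0, h1⟩
      set l : V →ₗ[ℝ] ℝ := l' ∘ₗ (Submodule.span ℝ (x '' {z})).mkQ with hl
      have hlz : l (x z) = 0 := by
        rw [hl, LinearMap.comp_apply, con_zero (x := x) {z} rfl, map_zero]
      have hlk : ∀ k : Nb1 x z, l (x k.1) = l' (figc x z k) := fun k => rfl
      have hnn : ∀ j, 0 ≤ l (x j) := by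
        intro j
        by_contra hneg
        push Not at hneg
        obtain ⟨k, -, hk, hed⟩ := improve_ed hφ hE Face.univ (mem_univ z) (ψ := -l)
          (by simp [hlz]) (mem_univ j) (by simpa using hneg)
        have hk' : l (x k) < 0 := by simpa using hk
        have h2 := hlk ⟨k, hed.1, hed.2.1⟩
        by_cases hkB : (⟨k, hed.1, hed.2.1⟩ : Nb1 x z) ∈ B
        · rw [h0 _ hkB] at h2
          have h3 : l (x k) = 0 := h2
          linarith
        · have h3 := h1 _ hkB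
          rw [← h2] at h3
          have h4 : 0 < l (x k) := h3
          linarith
      refine ⟨{j | l (x j) = 0}, ⟨l, fun i hi => hi, fun i hi => ?_⟩, hlz, ?_⟩
      · exact lt_of_le_of_ne (hnn i) fun h => hi h.symm
      · ext k
        constructor
        · intro hk
          show l (x k.1) = 0
          rw [hlk, h0 k hk]
        · intro hk
          by_contra hkB
          have h3 := h1 _ hkB
          rw [← hlk] at h3
          have h4 : l (x k.1) = 0 := hk
          rw [h4] at h3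
          exact lt_irrefl _ h3
    · rintro ⟨A, ⟨l, h0, h1⟩, hz, rfl⟩
      have hz0 : ∀ i ∈ ({z} : Set ι), l (x i) = 0 := by
        rintro _ rfl
        exact h0 _ hz
      exact ⟨down {z} l hz0, fun k hk => h0 _ hk, fun k hk => h1 _ hk⟩

/-- a vertex has at least as many neighbours as the dimension -/
theorem rk_le_nb (hφ : ∀ i, 0 < φ (x i)) (hE : AllExt x) (z : ι) :
    rk x univ ≤ {i | z ≠ i ∧ Face x {z, i}}.ncard + 1 := by
  have h1 : rk x univ ≤ rk x (insert z {i | z ≠ i ∧ Face x {z, i}}) := by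
    refine Submodule.finrank_mono ?_
    rw [Submodule.span_le]
    rintro _ ⟨j, -, rfl⟩
    by_contra hj
    obtain ⟨f, f1, f0⟩ := exists_pos_functional hj
    obtain ⟨k, -, hk, hed⟩ := improve_ed hφ hE Face.univ (mem_univ z) (ψ := f)
      (f0 _ (Submodule.subset_span ⟨z, by simp, rfl⟩)) (mem_univ j) f1
    rw [f0 _ (Submodule.subset_span ⟨k, Or.inr ⟨hed.1, hed.2.1⟩, rfl⟩)] at hk
    exact lt_irrefl _ hk
  exact h1.trans ((rk_le_ncard _).trans (ncard_insert_le _ _))

/-- two vertices that are not adjacent have a common neighbour if there are few vertices -/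
theorem exists_common (hφ : ∀ i, 0 < φ (x i)) (hE : AllExt x) (hr : 5 ≤ rk x univ)
    (hn : Nat.card ι ≤ rk x univ + 4) {a b : ι} (hab : a ≠ b) (hadj : ¬ Face x {a, b}) :
    ∃ z, (z ≠ a ∧ Face x {z, a}) ∧ (z ≠ b ∧ Face x {z, b}) := by
  by_contra hcon
  push Not at hcon
  have ha := rk_le_nb hφ hE a
  have hb := rk_le_nb hφ hE b
  have hd : Disjoint {i | a ≠ i ∧ Face x {a, i}} {i | b ≠ i ∧ Face x {b, i}} := by
    rw [disjoint_left]
    rintro z ⟨h1, h2⟩ ⟨h3, h4⟩
    exact hcon z ⟨h1.symm, by rw [pair_comm]; exact h2⟩ h3.symm (by rw [pair_comm]; exact h4)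
  have hu := ncard_union_eq hd (toFinite _) (toFinite _)
  have hsub : {i | a ≠ i ∧ Face x {a, i}} ∪ {i | b ≠ i ∧ Face x {b, i}} ⊆ {a, b}ᶜ := by
    rintro i (⟨h1, h2⟩ | ⟨h1, h2⟩) (h3 | h3)
    · exact h1 h3.symm
    · rw [mem_singleton_iff] at h3
      rw [h3] at h2
      exact hadj h2
    · rw [h3, pair_comm] at h2
      exact hadj h2
    · rw [mem_singleton_iff] at h3
      exact h1 h3.symm
  have h5 := ncard_le_ncard hsub (toFinite _)
  have h6 := ncard_add_ncard_compl ({a, b} : Set ι)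
  rw [ncard_pair hab] at h6
  omega

end config

section real

variable {κ : Type*} {W : Type*} [AddCommGroup W] [Module ℝ W] [FiniteDimensional ℝ W] [Finite κ]
  {y : κ → W} {φ' : W →ₗ[ℝ] ℝ}

/-- Every acyclic configuration of extreme vectors comes from a polytope. -/
theorem exists_polytope (hφ' : ∀ k, 0 < φ' (y k)) (hE : AllExt y) :
    ∃ (m : ℕ) (S : Finset (EuclideanSpace ℝ (Fin m)))
      (e : κ ≃ {p // p ∈ (convexHull ℝ (S : Set (EuclideanSpace ℝ (Fin m)))).extremePoints ℝ}),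
      ∀ A : Set κ, Face y A ↔
        Face (vec (convexHull ℝ (S : Set (EuclideanSpace ℝ (Fin m))))) (e '' A) := by
  classical
  haveI := Fintype.ofFinite κ
  set m := finrank ℝ W with hm
  have hfin : finrank ℝ W = finrank ℝ (EuclideanSpace ℝ (Fin m)) := by
    rw [finrank_euclideanSpace_fin]
  set L : W ≃ₗ[ℝ] EuclideanSpace ℝ (Fin m) := LinearEquiv.ofFinrankEq _ _ hfin with hL
  set p : κ → EuclideanSpace ℝ (Fin m) := fun k => L ((φ' (y k))⁻¹ • y k) with hp
  set S : Finset (EuclideanSpace ℝ (Fin m)) := Finset.univ.image p with hS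
  have hSr : (S : Set (EuclideanSpace ℝ (Fin m))) = range p := by simp [hS]
  set P : Set (EuclideanSpace ℝ (Fin m)) := convexHull ℝ (S : Set (EuclideanSpace ℝ (Fin m)))
    with hP
  have hPt : Pt P := pt_of_hull S
  have hext : P.extremePoints ℝ ⊆ range p := by
    rw [← hSr]; exact extremePoints_convexHull_subset
  -- the functionals
  have hgp : ∀ (l : W →ₗ[ℝ] ℝ) (k : κ), (l ∘ₗ L.symm.toLinearMap) (p k) =
      (φ' (y k))⁻¹ * l (y k) := by
    intro l k
    simp [hp]
  have hsing : ∀ k, ∃ g : EuclideanSpace ℝ (Fin m) →ₗ[ℝ] ℝ, g (p k) = 0 ∧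
      ∀ j, j ≠ k → 0 < g (p j) := by
    intro k
    obtain ⟨l, h0, h1⟩ := (hE k).1
    refine ⟨l ∘ₗ L.symm.toLinearMap, ?_, fun j hj => ?_⟩
    · rw [hgp, h0 k rfl, mul_zero]
    · rw [hgp]
      exact mul_pos (inv_pos.2 (hφ' j)) (h1 j hj)
  have hinj : Function.Injective p := by
    intro j k hjk
    by_contra hne
    obtain ⟨g, g0, g1⟩ := hsing k
    have := g1 j hne
    rw [hjk, g0] at this
    exact lt_irrefl _ this
  have hmem : ∀ k, p k ∈ P.extremePoints ℝ := by
    intro k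
    by_contra hk
    obtain ⟨g, g0, g1⟩ := hsing k
    have h1 : p k ∈ P := subset_convexHull ℝ _ (by rw [hSr]; exact ⟨k, rfl⟩)
    have h2 := hull_eq hPt.cpt hPt.cvx hPt.fin P (IsExposed.refl P)
    rw [h2] at h1
    have hconv : Convex ℝ {w | 0 < g w} := convex_halfSpace_gt g.isLinear 0
    have h3 : P ∩ P.extremePoints ℝ ⊆ {w | 0 < g w} := by
      rintro q ⟨-, hq⟩
      obtain ⟨j, rfl⟩ := hext hq
      exact g1 j fun h => hk (h ▸ hq)
    have h4 := convexHull_min h3 hconv h1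
    have h5 : 0 < g (p k) := h4
    rw [g0] at h5
    exact lt_irrefl _ h5
  set e : κ ≃ {q // q ∈ P.extremePoints ℝ} := Equiv.ofBijective (fun k => ⟨p k, hmem k⟩)
    ⟨fun j k hjk => hinj (congrArg Subtype.val hjk), fun q => by
      obtain ⟨k, hk⟩ := hext q.2
      exact ⟨k, Subtype.ext hk⟩⟩ with he
  have hev : ∀ k, vec P (e k) = (p k, (1 : ℝ)) := fun k => rfl
  refine ⟨m, S, e, fun A => ?_⟩
  constructor
  · rintro ⟨l, h0, h1⟩
    refine ⟨(l ∘ₗ L.symm.toLinearMap) ∘ₗ LinearMap.fst ℝ _ ℝ, ?_, ?_⟩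
    · rintro _ ⟨k, hk, rfl⟩
      rw [hev, LinearMap.comp_apply, LinearMap.fst_apply, hgp, h0 k hk, mul_zero]
    · intro q hq
      obtain ⟨k, rfl⟩ := e.surjective q
      rw [hev, LinearMap.comp_apply, LinearMap.fst_apply, hgp]
      exact mul_pos (inv_pos.2 (hφ' k)) (h1 k fun hk => hq ⟨k, hk, rfl⟩)
  · rintro ⟨F, h0, h1⟩
    have key : ∀ k, (F ∘ₗ (L.toLinearMap.prod φ')) (y k) = φ' (y k) * F (vec P (e k)) := by
      intro k
      rw [LinearMap.comp_apply, LinearMap.prod_apply, hev, ← smul_eq_mul, ← map_smul]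
      congr 1
      have hk := (hφ' k).ne'
      simp only [hp, map_smul, Prod.smul_mk, smul_eq_mul, mul_one]
      rw [smul_smul, mul_inv_cancel₀ hk, one_smul]
      rfl
    refine ⟨F ∘ₗ (L.toLinearMap.prod φ'), fun k hk => ?_, fun k hk => ?_⟩
    · rw [key, h0 _ ⟨k, hk, rfl⟩, mul_zero]
    · rw [key]
      refine mul_pos (hφ' k) (h1 _ ?_)
      rintro ⟨k', hk', h⟩
      exact hk (e.injective h ▸ hk')

theorem exists_polytope' (hφ' : ∀ k, 0 < φ' (y k)) (hE : AllExt y) :
    ∃ (m : ℕ) (Q : Set (EuclideanSpace ℝ (Fin m))),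
      (∃ S : Finset (EuclideanSpace ℝ (Fin m)), Q = convexHull ℝ (S : Set _)) ∧
      ∃ e : κ ≃ {p // p ∈ Q.extremePoints ℝ}, ∀ A : Set κ, Face y A ↔ Face (vec Q) (e '' A) := by
  obtain ⟨m, S, e, he⟩ := exists_polytope hφ' hE
  exact ⟨m, _, ⟨S, rfl⟩, e, he⟩

end real

end Pool.Agent.Lock
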